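import Pool.Graph.R_seed8.Results.MP_1e0c69_ag.NewVariableFails

/-!
# Waring rank after adjoining a variable: general tools
-/

set_option autoImplicit false

namespace Pool.Agent.KS6_80.WR

open MvPolynomial Pool.Agent.Results.MP_1e0c69_ag.NewVariableFails

variable {n : ℕ}

/-- the substitution `u = v` -/
noncomputable def sub (v : MvPolynomial (Fin n) ℂ) :
    MvPolynomial (Option (Fin n)) ℂ →ₐ[ℂ] MvPolynomial (Fin n) ℂ :=
  aeval fun o => o.elim v X

theorem sub_none (v : MvPolynomial (Fin n) ℂ) : sub v (X none) = v := by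
  simp [sub]

theorem sub_rename (v p : MvPolynomial (Fin n) ℂ) : sub v (rename some p) = p := by
  rw [sub, aeval_rename]
  have : ((fun o : Option (Fin n) => o.elim v X) ∘ some) = (X : Fin n → MvPolynomial (Fin n) ℂ) := rfl
  rw [this]
  simp

theorem sub_adjoin (v f g : MvPolynomial (Fin n) ℂ) : sub v (adjoin f g) = f + v * g := by
  rw [adjoin, map_add, map_mul, sub_rename, sub_none, sub_rename]

/-- a linear form in the variables `x`, `u` -/
theorem split_linear (l : MvPolynomial (Option (Fin n)) ℂ) (hl : l.IsHomogeneous 1) :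
    ∃ (a : ℂ) (m : MvPolynomial (Fin n) ℂ), m.IsHomogeneous 1 ∧ l = C a * X none + rename some m := by
  have h : l ∈ homogeneousSubmodule (Option (Fin n)) ℂ 1 := hl
  rw [homogeneousSubmodule_one_eq_span_X] at h
  clear hl
  induction h using Submodule.span_induction with
  | mem p hp =>
    obtain ⟨i, rfl⟩ := hp
    cases i with
    | none => exact ⟨1, 0, isHomogeneous_zero _ _ _, by simp⟩
    | some i => exact ⟨0, X i, isHomogeneous_X _ _, by simp⟩
  | zero => exact ⟨0, 0, isHomogeneous_zero _ _ _, by simp⟩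
  | add p q _ _ h1 h2 =>
    obtain ⟨a, m, hm, rfl⟩ := h1
    obtain ⟨b, k, hk, rfl⟩ := h2
    exact ⟨a + b, m + k, hm.add hk, by rw [map_add, map_add]; ring⟩
  | smul c p _ h1 =>
    obtain ⟨a, m, hm, rfl⟩ := h1
    refine ⟨c * a, C c * m, by simpa using (isHomogeneous_C (Fin n) c).mul hm, ?_⟩
    rw [smul_eq_C_mul, map_mul, map_mul, rename_C]
    ring

theorem IsPowerSum.mono {σ : Type} {d a b : ℕ} (hd : d ≠ 0) {F : MvPolynomial σ ℂ}
    (hF : IsPowerSum d a F) (hab : a ≤ b) : IsPowerSum d b F := by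
  obtain ⟨k, rfl⟩ := Nat.exists_eq_add_of_le hab
  have h0 : IsPowerSum d k (0 : MvPolynomial σ ℂ) :=
    ⟨fun _ => 0, fun _ => isHomogeneous_zero _ _ _, by simp [zero_pow hd]⟩
  simpa using hF.add h0

theorem isPowerSum_finset' {σ ι : Type} {d : ℕ} [DecidableEq ι] (s : Finset ι)
    (l : ι → MvPolynomial σ ℂ) (hl : ∀ i ∈ s, (l i).IsHomogeneous 1) :
    IsPowerSum d s.card (∑ i ∈ s, l i ^ d) := by
  induction s using Finset.induction_on with
  | empty => simpa using isPowerSum_zero d
  | insert a s ha ih =>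
    rw [Finset.sum_insert ha, Finset.card_insert_of_notMem ha, add_comm s.card 1]
    refine IsPowerSum.add ?_ (ih fun i hi => hl i (Finset.mem_insert_of_mem hi))
    exact ⟨fun _ => l a, fun _ => hl a (Finset.mem_insert_self a s), by simp⟩

/-- the data of a decomposition of `f + u g` -/
theorem decomp {d w : ℕ} {f g : MvPolynomial (Fin n) ℂ} (h : IsPowerSum d w (adjoin f g)) :
    ∃ (a : Fin w → ℂ) (m : Fin w → MvPolynomial (Fin n) ℂ), (∀ i, (m i).IsHomogeneous 1) ∧
      (∀ v : MvPolynomial (Fin n) ℂ, f + v * g = ∑ i, (C (a i) * v + m i) ^ d) := by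
  obtain ⟨l, hl, hF⟩ := h
  choose a m hm hlm using fun i => split_linear (l i) (hl i)
  refine ⟨a, m, hm, fun v => ?_⟩
  rw [← sub_adjoin, hF, map_sum]
  refine Finset.sum_congr rfl fun i _ => ?_
  rw [map_pow, hlm i, map_add, map_mul, sub_none, sub_rename]
  congr 2
  congr 1
  simp [sub]

/-- the values of the terms -/
theorem decomp_eval {d w : ℕ} {f g : MvPolynomial (Fin n) ℂ} {a : Fin w → ℂ}
    {m : Fin w → MvPolynomial (Fin n) ℂ}
    (h : ∀ v : MvPolynomial (Fin n) ℂ, f + v * g = ∑ i, (C (a i) * v + m i) ^ d)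
    (x : Fin n → ℂ) (t : ℂ) : eval x f + t * eval x g = ∑ i, (a i * t + eval x (m i)) ^ d := by
  have h1 := congrArg (eval x) (h (C t))
  simpa [map_sum] using h1

theorem eval_zero_hom {σ : Type} {p : MvPolynomial σ ℂ} {k : ℕ} (hp : p.IsHomogeneous k) (hk : k ≠ 0) :
    eval (0 : σ → ℂ) p = 0 := by
  have h1 : coeff 0 p = 0 := by
    by_contra hne
    have := hp hne
    simp at this
    exact hk this.symm
  rw [← constantCoeff_eq] at h1
  rw [eval_zero, h1]

end Pool.Agent.KS6_80.WR
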