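import Pool.Agent.KS6_80.WR.A

/-!
# The general lower bound: `WR (f + u g) ≥ 2 + min_v WR (f + v g)`
-/

set_option autoImplicit false

namespace Pool.Agent.KS6_80.WR

open MvPolynomial Pool.Agent.Results.MP_1e0c69_ag.NewVariableFails

variable {n : ℕ}

theorem exists_root {d : ℕ} (hd : 2 ≤ d) (a b : ℂ) (ha : a ≠ 0) : ∃ ζ : ℂ, ζ ^ d = -1 ∧ a ≠ ζ * b := by
  obtain ⟨z, hz⟩ := IsAlgClosed.exists_pow_nat_eq (-1 : ℂ) (n := d) (by omega)
  by_cases h : a = z * b
  · have hω := Complex.isPrimitiveRoot_exp d (by omega)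
    set ω := Complex.exp (2 * Real.pi * Complex.I / d) with hωd
    refine ⟨ω * z, by rw [mul_pow, hz, hω.pow_eq_one, one_mul], ?_⟩
    intro h2
    have h3 : (ω - 1) * a = 0 := by
      have : ω * z * b = ω * a := by rw [h]; ring
      rw [this] at h2
      linear_combination -h2
    rcases mul_eq_zero.mp h3 with h4 | h4
    · exact hω.ne_one (by omega) (by linear_combination h4)
    · exact ha h4
  · exact ⟨z, hz, h⟩

theorem hom_C_mul' {σ : Type} {k : ℕ} (c : ℂ) {p : MvPolynomial σ ℂ} (hp : p.IsHomogeneous k) :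
    (C c * p).IsHomogeneous k := hom_C_mul c p hp

/-- at least one term contains `u` -/
theorem exists_ne {d w : ℕ} {f g : MvPolynomial (Fin n) ℂ} (hg0 : g ≠ 0) {a : Fin w → ℂ}
    {m : Fin w → MvPolynomial (Fin n) ℂ}
    (h : ∀ v : MvPolynomial (Fin n) ℂ, f + v * g = ∑ i, (C (a i) * v + m i) ^ d) : ∃ i, a i ≠ 0 := by
  by_contra hcon
  push Not at hcon
  apply hg0
  apply MvPolynomial.funext
  intro x
  have h0 := decomp_eval h x 0
  have h1 := decomp_eval h x 1
  simp only [hcon, zero_mul, zero_add, one_mul, add_zero] at h0 h1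
  rw [map_zero]
  linear_combination h1 - h0

theorem sum_pow_zero {d w : ℕ} (hd : 2 ≤ d) {f g : MvPolynomial (Fin n) ℂ} (hf : f.IsHomogeneous d)
    (hg : g.IsHomogeneous (d - 1)) {a : Fin w → ℂ}
    {m : Fin w → MvPolynomial (Fin n) ℂ} (hm : ∀ i, (m i).IsHomogeneous 1)
    (h : ∀ v : MvPolynomial (Fin n) ℂ, f + v * g = ∑ i, (C (a i) * v + m i) ^ d) :
    ∑ i, a i ^ d = 0 := by
  have h1 := decomp_eval h 0 1
  rw [eval_zero_hom hf (by omega), eval_zero_hom hg (by omega)] at h1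
  simp only [mul_one, mul_zero, add_zero] at h1
  rw [h1]
  refine Finset.sum_congr rfl fun i _ => ?_
  rw [eval_zero_hom (hm i) one_ne_zero, add_zero]

/-- two terms can be removed -/
theorem two_less {d w : ℕ} (hd : 2 ≤ d) {f g : MvPolynomial (Fin n) ℂ} (hf : f.IsHomogeneous d)
    (hg : g.IsHomogeneous (d - 1)) (hg0 : g ≠ 0) (hw : IsPowerSum d w (adjoin f g)) :
    2 ≤ w ∧ ∃ v : MvPolynomial (Fin n) ℂ, v.IsHomogeneous 1 ∧ IsPowerSum d (w - 2) (f + v * g) := by
  classical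
  obtain ⟨a, m, hm, h⟩ := decomp hw
  have hsum := sum_pow_zero hd hf hg hm h
  obtain ⟨i, hi⟩ := exists_ne hg0 h
  obtain ⟨j, hji, hj⟩ : ∃ j, j ≠ i ∧ a j ≠ 0 := by
    by_contra hcon
    push Not at hcon
    rw [Finset.sum_eq_single i (fun b _ hb => by rw [hcon b hb, zero_pow (by omega)])
      (fun h => absurd (Finset.mem_univ i) h)] at hsum
    exact hi (pow_eq_zero_iff (by omega) |>.mp hsum)
  obtain ⟨ζ, hζ, hne⟩ := exists_root hd (a i) (a j) hi
  have hne' : a i - ζ * a j ≠ 0 := sub_ne_zero.mpr hne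
  set v : MvPolynomial (Fin n) ℂ := C ((a i - ζ * a j)⁻¹) * (C ζ * m j - m i) with hv
  have hvh : v.IsHomogeneous 1 := hom_C_mul' _ ((hom_C_mul' _ (hm j)).sub (hm i))
  have hvm : C (a i) * v + m i = C ζ * (C (a j) * v + m j) := by
    have h1 : (C (a i - ζ * a j) : MvPolynomial (Fin n) ℂ) * v = C ζ * m j - m i := by
      rw [hv, ← mul_assoc, ← C_mul, mul_inv_cancel₀ hne', C_1, one_mul]
    rw [C_sub, C_mul] at h1
    linear_combination h1
  have hij : i ∉ Finset.univ.erase i := Finset.notMem_erase _ _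
  have hjm : j ∈ (Finset.univ : Finset (Fin w)).erase i := Finset.mem_erase.mpr ⟨hji, Finset.mem_univ _⟩
  have hcard : ((Finset.univ.erase i).erase j).card = w - 2 := by
    rw [Finset.card_erase_of_mem hjm, Finset.card_erase_of_mem (Finset.mem_univ _), Finset.card_univ,
      Fintype.card_fin]
    omega
  have hw2 : 2 ≤ w := by
    have := Finset.card_le_univ ({i, j} : Finset (Fin w))
    rw [Finset.card_pair (Ne.symm hji), Fintype.card_fin] at this
    exact this
  refine ⟨hw2, v, hvh, ?_⟩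
  have hsum2 : f + v * g = ∑ k ∈ (Finset.univ.erase i).erase j, (C (a k) * v + m k) ^ d := by
    rw [h v, ← Finset.add_sum_erase _ _ (Finset.mem_univ i), ← Finset.add_sum_erase _ _ hjm, hvm, mul_pow,
      ← C_pow, hζ, C_neg, C_1]
    ring
  rw [hsum2, ← hcard]
  exact isPowerSum_finset' _ _ fun k _ => (hom_C_mul' _ hvh).add (hm k)

theorem waringRank_le {σ : Type} {d w : ℕ} {F : MvPolynomial σ ℂ} (h : IsPowerSum d w F) :
    waringRank d F ≤ w := iInf₂_le w h

theorem le_waringRank {σ : Type} {d : ℕ} {F : MvPolynomial σ ℂ} {c : ℕ∞}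
    (h : ∀ w, IsPowerSum d w F → c ≤ w) : c ≤ waringRank d F := le_iInf₂ h

/-- **The general lower bound** -/
theorem lower {d : ℕ} (hd : 2 ≤ d) {f g : MvPolynomial (Fin n) ℂ} (hf : f.IsHomogeneous d)
    (hg : g.IsHomogeneous (d - 1)) (hg0 : g ≠ 0) :
    2 + ⨅ v ∈ {v : MvPolynomial (Fin n) ℂ | v.IsHomogeneous 1}, waringRank d (f + v * g) ≤
      waringRank d (adjoin f g) := by
  refine le_waringRank fun w hw => ?_
  obtain ⟨h2, v, hv, hp⟩ := two_less hd hf hg hg0 hw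
  have h1 : (⨅ v ∈ {v : MvPolynomial (Fin n) ℂ | v.IsHomogeneous 1}, waringRank d (f + v * g)) ≤
      ((w - 2 : ℕ) : ℕ∞) := (iInf₂_le v hv).trans (waringRank_le hp)
  calc 2 + ⨅ v ∈ {v : MvPolynomial (Fin n) ℂ | v.IsHomogeneous 1}, waringRank d (f + v * g)
      ≤ 2 + ((w - 2 : ℕ) : ℕ∞) := by gcongr
    _ = ((2 + (w - 2) : ℕ) : ℕ∞) := by push_cast; rfl
    _ = (w : ℕ∞) := by rw [Nat.add_sub_cancel' h2]

/-- degree one -/
theorem degree_one {f g : MvPolynomial (Fin n) ℂ} (hf : f.IsHomogeneous 1)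
    (hg : g.IsHomogeneous 0) (hg0 : g ≠ 0) :
    1 + ⨅ v ∈ {v : MvPolynomial (Fin n) ℂ | v.IsHomogeneous 1}, waringRank 1 (f + v * g) ≤
      waringRank 1 (adjoin f g) := by
  obtain ⟨c, rfl⟩ : ∃ c, g = C c := by
    refine ⟨coeff 0 g, ?_⟩
    exact (totalDegree_eq_zero_iff_eq_C.mp (Nat.le_zero.mp hg.totalDegree_le))
  have hc : c ≠ 0 := fun h => hg0 (by rw [h, C_0])
  have h0 : (⨅ v ∈ {v : MvPolynomial (Fin n) ℂ | v.IsHomogeneous 1}, waringRank 1 (f + v * C c)) ≤ 0 := by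
    have hmem : (C (-c⁻¹) * f) ∈ {v : MvPolynomial (Fin n) ℂ | v.IsHomogeneous 1} := by
      have := hom_C_mul' (-c⁻¹) hf
      exact this
    refine (iInf₂_le (C (-c⁻¹) * f) hmem).trans ?_
    have : f + C (-c⁻¹) * f * C c = 0 := by
      have h1 : (C (-c⁻¹) * C c : MvPolynomial (Fin n) ℂ) = -1 := by
        rw [← C_mul, neg_mul, inv_mul_cancel₀ hc, C_neg, C_1]
      linear_combination f * h1
    rw [this]
    exact_mod_cast waringRank_le (isPowerSum_zero 1)
  refine le_waringRank fun w hw => ?_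
  have hw1 : 1 ≤ w := by
    by_contra hlt
    have hw0 : w = 0 := by omega
    subst hw0
    obtain ⟨l, -, hl⟩ := hw
    simp only [Finset.univ_eq_empty, Finset.sum_empty] at hl
    have h3 := congrArg (eval (fun o : Option (Fin n) => o.elim (1 : ℂ) fun _ => 0)) hl
    rw [adjoin, map_add, map_mul, eval_X, rename_C, eval_C, eval_rename, map_zero] at h3
    have h4 : ((fun o : Option (Fin n) => o.elim (1 : ℂ) fun _ => 0) ∘ some) = (0 : Fin n → ℂ) := rfl
    rw [h4, eval_zero_hom hf one_ne_zero] at h3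
    apply hc
    simpa using h3
  calc 1 + ⨅ v ∈ {v : MvPolynomial (Fin n) ℂ | v.IsHomogeneous 1}, waringRank 1 (f + v * C c)
      ≤ 1 + 0 := by gcongr
    _ ≤ (w : ℕ∞) := by rw [add_zero]; exact_mod_cast hw1

end Pool.Agent.KS6_80.WR
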