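import Pool.Agent.KS6_80.WR.B

/-!
# Cubic forms in at most two variables
-/

set_option autoImplicit false

namespace Pool.Agent.KS6_80.WR

open MvPolynomial Pool.Agent.Results.MP_1e0c69_ag.NewVariableFails

section Two

variable {σ : Type}

theorem isPowerSum_cube {p : MvPolynomial σ ℂ} (hp : p.IsHomogeneous 1) : IsPowerSum 3 1 (p ^ 3) :=
  ⟨fun _ => p, fun _ => hp, by simp⟩

theorem cube2 {p q : MvPolynomial σ ℂ} (hp : p.IsHomogeneous 1) (hq : q.IsHomogeneous 1) (A B D E : ℂ) :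
    ∃ v : MvPolynomial σ ℂ, v.IsHomogeneous 1 ∧
      IsPowerSum 3 1 (C A * p ^ 3 + C B * (p ^ 2 * q) + C D * (p * q ^ 2) + C E * q ^ 3 + v * (p * q)) := by
  obtain ⟨r, hr⟩ := IsAlgClosed.exists_pow_nat_eq A (n := 3) (by norm_num)
  obtain ⟨s, hs⟩ := IsAlgClosed.exists_pow_nat_eq E (n := 3) (by norm_num)
  refine ⟨C (3 * r ^ 2 * s - B) * p + C (3 * r * s ^ 2 - D) * q, (hom_C_mul' _ hp).add (hom_C_mul' _ hq), ?_⟩
  have h : C A * p ^ 3 + C B * (p ^ 2 * q) + C D * (p * q ^ 2) + C E * q ^ 3 +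
      (C (3 * r ^ 2 * s - B) * p + C (3 * r * s ^ 2 - D) * q) * (p * q) = (C r * p + C s * q) ^ 3 := by
    have h3 : (C 3 : MvPolynomial σ ℂ) = 3 := map_ofNat C 3
    rw [← hr, ← hs]
    simp only [C_sub, C_mul, C_pow, h3]
    ring
  rw [h]
  exact isPowerSum_cube ((hom_C_mul' _ hp).add (hom_C_mul' _ hq))

theorem sq2 {p q : MvPolynomial σ ℂ} (hp : p.IsHomogeneous 1) (hq : q.IsHomogeneous 1) (A B D E κ : ℂ)
    (hκ : κ ≠ 0) :
    ∃ v : MvPolynomial σ ℂ, v.IsHomogeneous 1 ∧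
      IsPowerSum 3 2 (C A * p ^ 3 + C B * (p ^ 2 * q) + C D * (p * q ^ 2) + C E * q ^ 3 +
        v * (C κ * p ^ 2)) := by
  have hk : (C κ⁻¹ * C κ : MvPolynomial σ ℂ) = 1 := by rw [← C_mul, inv_mul_cancel₀ hκ, C_1]
  have h3 : (C 3 : MvPolynomial σ ℂ) = 3 := map_ofNat C 3
  by_cases hE : E = 0
  · refine ⟨C κ⁻¹ * (C (D / 3 - A) * p + C (-B) * q),
      hom_C_mul' _ ((hom_C_mul' _ hp).add (hom_C_mul' _ hq)), ?_⟩
    have h : C A * p ^ 3 + C B * (p ^ 2 * q) + C D * (p * q ^ 2) + C E * q ^ 3 +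
        C κ⁻¹ * (C (D / 3 - A) * p + C (-B) * q) * (C κ * p ^ 2) =
        C (D / 6) * (q + p) ^ 3 + C (-(D / 6)) * (q - p) ^ 3 := by
      obtain ⟨e, rfl⟩ : ∃ e, D = 6 * e := ⟨D / 6, by ring⟩
      have e1 : (6 * e / 3 - A : ℂ) = 2 * e - A := by ring
      have e2 : (6 * e / 6 : ℂ) = e := by ring
      have h6 : (C 6 : MvPolynomial σ ℂ) = 6 := map_ofNat C 6
      have h2 : (C 2 : MvPolynomial σ ℂ) = 2 := map_ofNat C 2
      rw [e1, e2, hE]
      simp only [C_sub, C_mul, C_neg, h2, h6, C_0]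
      linear_combination ((2 * C e - C A) * p ^ 3 - C B * q * p ^ 2) * hk
    rw [h]
    exact (isPowerSum_C_mul _ _ (hq.add hp)).add (isPowerSum_C_mul _ _ (hq.sub hp))
  · obtain ⟨s, hs⟩ := IsAlgClosed.exists_pow_nat_eq E (n := 3) (by norm_num)
    have hs0 : s ≠ 0 := fun h => hE (by rw [← hs, h]; norm_num)
    obtain ⟨r, hr⟩ : ∃ r, D = 3 * r * s ^ 2 := ⟨D / (3 * s ^ 2), by field_simp⟩
    refine ⟨C κ⁻¹ * (C (r ^ 3 - A) * p + C (3 * r ^ 2 * s - B) * q),
      hom_C_mul' _ ((hom_C_mul' _ hp).add (hom_C_mul' _ hq)), ?_⟩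
    have h : C A * p ^ 3 + C B * (p ^ 2 * q) + C D * (p * q ^ 2) + C E * q ^ 3 +
        C κ⁻¹ * (C (r ^ 3 - A) * p + C (3 * r ^ 2 * s - B) * q) * (C κ * p ^ 2) =
        (C r * p + C s * q) ^ 3 := by
      rw [hr, ← hs]
      simp only [C_sub, C_mul, C_pow, h3]
      linear_combination ((C r ^ 3 - C A) * p ^ 3 + (3 * C r ^ 2 * C s - C B) * q * p ^ 2) * hk
    rw [h]
    exact IsPowerSum.mono (by norm_num) (isPowerSum_cube ((hom_C_mul' _ hp).add (hom_C_mul' _ hq)))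
      one_le_two

/-- change of basis -/
theorem basis_change {x y p q : MvPolynomial σ ℂ} {e e' f f' : ℂ} (hx : x = C e * p + C e' * q)
    (hy : y = C f * p + C f' * q) (A B D E : ℂ) : ∃ A' B' D' E' : ℂ,
    C A * x ^ 3 + C B * (x ^ 2 * y) + C D * (x * y ^ 2) + C E * y ^ 3 =
      C A' * p ^ 3 + C B' * (p ^ 2 * q) + C D' * (p * q ^ 2) + C E' * q ^ 3 := by
  refine ⟨A * e ^ 3 + B * e ^ 2 * f + D * e * f ^ 2 + E * f ^ 3,
    3 * A * e ^ 2 * e' + B * (e ^ 2 * f' + 2 * e * e' * f) + D * (e' * f ^ 2 + 2 * e * f * f') +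
      3 * E * f ^ 2 * f',
    3 * A * e * e' ^ 2 + B * (e' ^ 2 * f + 2 * e * e' * f') + D * (e * f' ^ 2 + 2 * e' * f * f') +
      3 * E * f * f' ^ 2,
    A * e' ^ 3 + B * e' ^ 2 * f' + D * e' * f' ^ 2 + E * f' ^ 3, ?_⟩
  have h3 : (C 3 : MvPolynomial σ ℂ) = 3 := map_ofNat C 3
  have h2 : (C 2 : MvPolynomial σ ℂ) = 2 := map_ofNat C 2
  rw [hx, hy]
  simp only [C_add, C_mul, C_pow, h2, h3]
  ring

/-- the quadratic form has two different factors -/
theorem norm1 {x y : MvPolynomial σ ℂ} (hx : x.IsHomogeneous 1) (hy : y.IsHomogeneous 1) (A B D E a b c : ℂ)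
    (hdisc : b ^ 2 - 4 * a * c ≠ 0) :
    ∃ v : MvPolynomial σ ℂ, v.IsHomogeneous 1 ∧
      IsPowerSum 3 1 (C A * x ^ 3 + C B * (x ^ 2 * y) + C D * (x * y ^ 2) + C E * y ^ 3 +
        v * (C a * x ^ 2 + C b * (x * y) + C c * y ^ 2)) := by
  by_cases ha : a = 0
  · have hb : b ≠ 0 := by
      intro h
      apply hdisc
      rw [ha, h]
      ring
    have hbb : (C b⁻¹ * C b : MvPolynomial σ ℂ) = 1 := by rw [← C_mul, inv_mul_cancel₀ hb, C_1]
    set p := y with hp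
    set q := C b * x + C c * y with hq
    have h1 : x = C (-(b⁻¹ * c)) * p + C b⁻¹ * q := by
      rw [hq, C_neg, C_mul]
      linear_combination (-x) * hbb
    have h2 : y = C 1 * p + C 0 * q := by rw [C_1, C_0]; ring
    obtain ⟨A', B', D', E', h⟩ := basis_change h1 h2 A B D E
    obtain ⟨v, hv, hs⟩ := cube2 hy ((hom_C_mul' b hx).add (hom_C_mul' c hy)) A' B' D' E'
    refine ⟨v, hv, ?_⟩
    rw [h]
    have h3 : C a * x ^ 2 + C b * (x * y) + C c * y ^ 2 = p * q := by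
      rw [ha, hq, C_0]
      ring
    rw [h3]
    exact hs
  · obtain ⟨r, hr⟩ := IsAlgClosed.exists_pow_nat_eq (b ^ 2 - 4 * a * c) (n := 2) (by norm_num)
    have hr0 : r ≠ 0 := by
      intro h
      apply hdisc
      rw [← hr, h]
      ring
    have hrr : (C r⁻¹ * C r : MvPolynomial σ ℂ) = 1 := by rw [← C_mul, inv_mul_cancel₀ hr0, C_1]
    obtain ⟨t, ht⟩ : ∃ t, b = r + 2 * a * t := ⟨(b - r) / (2 * a), by field_simp; ring⟩
    -- `g = (a x + (r + a t) y) (x + t y)`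
    have hc : c = (r + a * t) * t := by
      have h4 : 4 * a * c = 4 * a * ((r + a * t) * t) := by
        rw [ht] at hr
        linear_combination hr
      exact mul_left_cancel₀ (mul_ne_zero (by norm_num) ha) h4
    set p := C a * x + C (r + a * t) * y with hp
    set q := x + C t * y with hq
    have hy' : y = C r⁻¹ * p + C (-(r⁻¹ * a)) * q := by
      rw [hp, hq, C_neg, C_mul, C_add, C_mul]
      linear_combination (-y) * hrr
    have hx' : x = C (-(t * r⁻¹)) * p + C (1 + t * r⁻¹ * a) * q := by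
      have h5 : x = q - C t * y := by rw [hq]; ring
      rw [hy'] at h5
      rw [h5]
      simp only [C_neg, C_mul, C_add, C_1]
      ring
    obtain ⟨A', B', D', E', h⟩ := basis_change hx' hy' A B D E
    have hph : p.IsHomogeneous 1 := (hom_C_mul' _ hx).add (hom_C_mul' _ hy)
    have hqh : q.IsHomogeneous 1 := hx.add (hom_C_mul' _ hy)
    obtain ⟨v, hv, hs⟩ := cube2 hph hqh A' B' D' E'
    refine ⟨v, hv, ?_⟩
    rw [h]
    have h3 : C a * x ^ 2 + C b * (x * y) + C c * y ^ 2 = p * q := by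
      have h2 : (C 2 : MvPolynomial σ ℂ) = 2 := map_ofNat C 2
      rw [hp, hq, ht, hc]
      simp only [C_add, C_mul, h2]
      ring
    rw [h3]
    exact hs

/-- the quadratic form is a square -/
theorem norm2 {x y : MvPolynomial σ ℂ} (hx : x.IsHomogeneous 1) (hy : y.IsHomogeneous 1) (A B D E a b c : ℂ)
    (hdisc : b ^ 2 - 4 * a * c = 0) (h0 : ¬ (a = 0 ∧ b = 0 ∧ c = 0)) :
    ∃ v : MvPolynomial σ ℂ, v.IsHomogeneous 1 ∧
      IsPowerSum 3 2 (C A * x ^ 3 + C B * (x ^ 2 * y) + C D * (x * y ^ 2) + C E * y ^ 3 +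
        v * (C a * x ^ 2 + C b * (x * y) + C c * y ^ 2)) := by
  by_cases ha : a = 0
  · have hb : b = 0 := by
      rw [ha] at hdisc
      exact pow_eq_zero_iff (two_ne_zero) |>.mp (by linear_combination hdisc)
    have hc : c ≠ 0 := fun h => h0 ⟨ha, hb, h⟩
    obtain ⟨A', B', D', E', h⟩ := basis_change (x := x) (y := y) (p := y) (q := x) (e := 0) (e' := 1)
      (f := 1) (f' := 0) (by simp) (by simp) A B D E
    obtain ⟨v, hv, hs⟩ := sq2 hy hx A' B' D' E' c hc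
    refine ⟨v, hv, ?_⟩
    rw [h]
    have h3 : C a * x ^ 2 + C b * (x * y) + C c * y ^ 2 = C c * y ^ 2 := by
      rw [ha, hb, C_0]
      ring
    rw [h3]
    exact hs
  · obtain ⟨t, ht⟩ : ∃ t, b = 2 * a * t := ⟨b / (2 * a), by field_simp⟩
    have hc : c = a * t ^ 2 := by
      have h4 : 4 * a * c = 4 * a * (a * t ^ 2) := by
        rw [ht] at hdisc
        linear_combination -hdisc
      exact mul_left_cancel₀ (mul_ne_zero (by norm_num) ha) h4
    obtain ⟨A', B', D', E', h⟩ := basis_change (x := x) (y := y) (p := x + C t * y) (q := y) (e := 1) (e' := -t)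
      (f := 0) (f' := 1) (by simp) (by simp) A B D E
    obtain ⟨v, hv, hs⟩ := sq2 (hx.add (hom_C_mul' t hy)) hy A' B' D' E' a ha
    refine ⟨v, hv, ?_⟩
    rw [h]
    have h3 : C a * x ^ 2 + C b * (x * y) + C c * y ^ 2 = C a * (x + C t * y) ^ 2 := by
      have h2 : (C 2 : MvPolynomial σ ℂ) = 2 := map_ofNat C 2
      rw [ht, hc]
      simp only [C_mul, C_pow, h2]
      ring
    rw [h3]
    exact hs

end Two

end Pool.Agent.KS6_80.WR
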