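import Pool.Agent.KS6_80.WR.C

/-!
# Cubic forms in at most two variables: removing three terms
-/

set_option autoImplicit false

namespace Pool.Agent.KS6_80.WR

open MvPolynomial Pool.Agent.Results.MP_1e0c69_ag.NewVariableFails

section General

variable {σ ι : Type} [DecidableEq ι]

theorem expand (S : Finset ι) (c : ι → ℂ) (l : ι → MvPolynomial σ ℂ) (h0 : ∑ i ∈ S, c i = 0)
    (h1 : ∑ i ∈ S, C (c i) * l i = 0) (v : MvPolynomial σ ℂ) :
    ∑ i ∈ S, C (c i) * (v + l i) ^ 3 =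
      ∑ i ∈ S, C (c i) * l i ^ 3 + v * (3 * ∑ i ∈ S, C (c i) * l i ^ 2) := by
  have e : ∀ i, C (c i) * (v + l i) ^ 3 = v ^ 3 * C (c i) + 3 * v ^ 2 * (C (c i) * l i) +
      v * (3 * (C (c i) * l i ^ 2)) + C (c i) * l i ^ 3 := fun i => by ring
  simp only [e, Finset.sum_add_distrib, ← Finset.mul_sum]
  rw [h1, ← map_sum, h0, C_0]
  ring

theorem core_small (S : Finset ι) (c : ι → ℂ) (l : ι → MvPolynomial σ ℂ) (hc : ∀ i ∈ S, c i ≠ 0)
    (h0 : ∑ i ∈ S, c i = 0) (h1 : ∑ i ∈ S, C (c i) * l i = 0)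
    (h2 : ∑ i ∈ S, C (c i) * l i ^ 2 ≠ 0) : 3 ≤ S.card := by
  by_contra hlt
  have h3 : S.card = 0 ∨ S.card = 1 ∨ S.card = 2 := by omega
  rcases h3 with h | h | h
  · rw [Finset.card_eq_zero] at h
    subst h
    simp at h2
  · obtain ⟨i, rfl⟩ := Finset.card_eq_one.mp h
    simp at h0
    exact hc i (by simp) h0
  · obtain ⟨i, j, hij, rfl⟩ := Finset.card_eq_two.mp h
    rw [Finset.sum_pair hij] at h0 h1 h2
    have hi := hc i (by simp)
    have e1 : c j = -c i := by linear_combination h0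
    have hii : (C (c i)⁻¹ * C (c i) : MvPolynomial σ ℂ) = 1 := by rw [← C_mul, inv_mul_cancel₀ hi, C_1]
    have e2 : l i = l j := by
      rw [e1, C_neg] at h1
      linear_combination (C (c i)⁻¹) * h1 - (l i - l j) * hii
    apply h2
    rw [e2, e1, C_neg]
    ring

theorem core_three (S : Finset ι) (c : ι → ℂ) (l : ι → MvPolynomial σ ℂ) (hc : ∀ i ∈ S, c i ≠ 0)
    (hl : ∀ i ∈ S, (l i).IsHomogeneous 1)
    (h0 : ∑ i ∈ S, c i = 0) (h1 : ∑ i ∈ S, C (c i) * l i = 0) (hS : S.card = 3) :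
    ∃ v : MvPolynomial σ ℂ, v.IsHomogeneous 1 ∧ ∑ i ∈ S, C (c i) * (v + l i) ^ 3 = 0 := by
  obtain ⟨i, j, k, hij, hik, hjk, rfl⟩ := Finset.card_eq_three.mp hS
  have hs : ∀ (f : ι → MvPolynomial σ ℂ), ∑ x ∈ ({i, j, k} : Finset ι), f x = f i + (f j + f k) := by
    intro f
    rw [Finset.sum_insert (by simp [hij, hik]), Finset.sum_pair hjk]
  have hs' : ∑ x ∈ ({i, j, k} : Finset ι), c x = c i + (c j + c k) := by
    rw [Finset.sum_insert (by simp [hij, hik]), Finset.sum_pair hjk]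
  rw [hs'] at h0
  rw [hs] at h1
  have hi := hc i (by simp)
  have hj := hc j (by simp)
  have hk := hc k (by simp)
  have hkk : (C (c k)⁻¹ * C (c k) : MvPolynomial σ ℂ) = 1 := by rw [← C_mul, inv_mul_cancel₀ hk, C_1]
  -- `l k - l i = t (l j - l i)`
  obtain ⟨t, ht⟩ : ∃ t, c j = -t * c k := ⟨-(c j / c k), by field_simp⟩
  have hk2 : l k - l i = C t * (l j - l i) := by
    have e1 : (C (c i) : MvPolynomial σ ℂ) = - C (c j) - C (c k) := by
      rw [← C_neg, ← C_sub]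
      congr 1
      linear_combination h0
    rw [e1, ht, C_mul, C_neg] at h1
    linear_combination (C (c k)⁻¹) * h1 + (- l k + l i + C t * (l j - l i)) * hkk
  have hi1 : c i = (t - 1) * c k := by linear_combination h0 - ht
  have ht1 : t - 1 ≠ 0 := fun h => hi (by rw [hi1, h, zero_mul])
  have ht0 : t ≠ 0 := fun h => hj (by rw [ht, h]; ring)
  obtain ⟨s, hsl⟩ : ∃ s : ℂ, 3 * s * t * (t - 1) = - (t ^ 3 - t) := by
    refine ⟨-(t + 1) / 3, ?_⟩
    ring
  refine ⟨- l i + C s * (l j - l i), ((hl i (by simp)).neg).add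
    (hom_C_mul' _ ((hl j (by simp)).sub (hl i (by simp)))), ?_⟩
  rw [hs]
  have e2 : l k = l i + C t * (l j - l i) := by linear_combination hk2
  have e3 : (3 * C s * C t * (C t - 1) : MvPolynomial σ ℂ) = - (C t ^ 3 - C t) := by
    have := congrArg (C : ℂ → MvPolynomial σ ℂ) hsl
    have h3 : (C 3 : MvPolynomial σ ℂ) = 3 := map_ofNat C 3
    simpa only [C_sub, C_mul, C_pow, C_neg, C_1, h3] using this
  rw [e2, hi1, ht]
  simp only [C_sub, C_mul, C_neg, C_1]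
  linear_combination C (c k) * (l j - l i) ^ 3 * e3

end General

theorem lin1 (l : MvPolynomial (Fin 1) ℂ) (hl : l.IsHomogeneous 1) : ∃ α : ℂ, l = C α * X 0 := by
  have h : l ∈ homogeneousSubmodule (Fin 1) ℂ 1 := hl
  rw [homogeneousSubmodule_one_eq_span_X] at h
  clear hl
  induction h using Submodule.span_induction with
  | mem p hp =>
    obtain ⟨i, rfl⟩ := hp
    have : i = 0 := Subsingleton.elim _ _
    subst this
    exact ⟨1, by simp⟩
  | zero => exact ⟨0, by simp⟩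
  | add p q _ _ h1 h2 =>
    obtain ⟨a, rfl⟩ := h1
    obtain ⟨b, rfl⟩ := h2
    exact ⟨a + b, by rw [C_add]; ring⟩
  | smul c p _ h1 =>
    obtain ⟨a, rfl⟩ := h1
    exact ⟨c * a, by rw [smul_eq_C_mul, C_mul]; ring⟩

theorem lin2 (l : MvPolynomial (Fin 2) ℂ) (hl : l.IsHomogeneous 1) :
    ∃ α β : ℂ, l = C α * X 0 + C β * X 1 := by
  have h : l ∈ homogeneousSubmodule (Fin 2) ℂ 1 := hl
  rw [homogeneousSubmodule_one_eq_span_X] at h
  clear hl
  induction h using Submodule.span_induction with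
  | mem p hp =>
    obtain ⟨i, rfl⟩ := hp
    fin_cases i
    · exact ⟨1, 0, by simp⟩
    · exact ⟨0, 1, by simp⟩
  | zero => exact ⟨0, 0, by simp⟩
  | add p q _ _ h1 h2 =>
    obtain ⟨a, b, rfl⟩ := h1
    obtain ⟨a', b', rfl⟩ := h2
    exact ⟨a + a', b + b', by rw [C_add, C_add]; ring⟩
  | smul c p _ h1 =>
    obtain ⟨a, b, rfl⟩ := h1
    exact ⟨c * a, c * b, by rw [smul_eq_C_mul, C_mul, C_mul]; ring⟩

theorem core_one {ι : Type} [DecidableEq ι] (S : Finset ι) (c : ι → ℂ) (l : ι → MvPolynomial (Fin 1) ℂ)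
    (hl : ∀ i, (l i).IsHomogeneous 1)
    (h0 : ∑ i ∈ S, c i = 0) (h1 : ∑ i ∈ S, C (c i) * l i = 0)
    (h2 : ∑ i ∈ S, C (c i) * l i ^ 2 ≠ 0) :
    ∃ v : MvPolynomial (Fin 1) ℂ, v.IsHomogeneous 1 ∧ ∑ i ∈ S, C (c i) * (v + l i) ^ 3 = 0 := by
  choose α hα using fun i => lin1 (l i) (hl i)
  have e2 : ∑ i ∈ S, C (c i) * l i ^ 2 = C (∑ i ∈ S, c i * α i ^ 2) * X 0 ^ 2 := by
    rw [map_sum, Finset.sum_mul]
    refine Finset.sum_congr rfl fun i _ => ?_
    rw [hα i, C_mul, C_pow]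
    ring
  have e3 : ∑ i ∈ S, C (c i) * l i ^ 3 = C (∑ i ∈ S, c i * α i ^ 3) * X 0 ^ 3 := by
    rw [map_sum, Finset.sum_mul]
    refine Finset.sum_congr rfl fun i _ => ?_
    rw [hα i, C_mul, C_pow]
    ring
  set Q := ∑ i ∈ S, c i * α i ^ 2 with hQ
  set K := ∑ i ∈ S, c i * α i ^ 3 with hK
  have hQ0 : Q ≠ 0 := by
    intro h
    apply h2
    rw [e2, h, C_0, zero_mul]
  refine ⟨C (-(K / (3 * Q))) * X 0, hom_C_mul' _ (isHomogeneous_X _ _), ?_⟩
  rw [expand S c l h0 h1, e2, e3]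
  have e4 : (C (-(K / (3 * Q))) * 3 * C Q : MvPolynomial (Fin 1) ℂ) = - C K := by
    have h3 : (C 3 : MvPolynomial (Fin 1) ℂ) = 3 := map_ofNat C 3
    rw [← h3, ← C_mul, ← C_mul, ← C_neg]
    congr 1
    field_simp
  linear_combination X 0 ^ 3 * e4

/-- parallel vectors -/
theorem par {a b a' b' : ℂ} (h0 : ¬ (a = 0 ∧ b = 0)) (h : a * b' - a' * b = 0) : ∃ t, a' = t * a ∧ b' = t * b := by
  by_cases ha : a = 0
  · have hb : b ≠ 0 := fun hb => h0 ⟨ha, hb⟩
    refine ⟨b' / b, ?_, by field_simp⟩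
    rw [ha] at h ⊢
    have : a' * b = 0 := by linear_combination -h
    rcases mul_eq_zero.mp this with h' | h'
    · rw [h']; ring
    · exact absurd h' hb
  · refine ⟨a' / a, by field_simp, ?_⟩
    field_simp
    linear_combination h

theorem par3 {x y : MvPolynomial (Fin 2) ℂ} (hx : x.IsHomogeneous 1) (hy : y.IsHomogeneous 1)
    (c₁ c₂ c₃ a₁ b₁ a₂ b₂ a₃ b₃ : ℂ) (h12 : a₁ * b₂ - a₂ * b₁ = 0) (h13 : a₁ * b₃ - a₃ * b₁ = 0)
    (h23 : a₂ * b₃ - a₃ * b₂ = 0) :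
    IsPowerSum 3 1 (C c₁ * (C a₁ * x + C b₁ * y) ^ 3 + (C c₂ * (C a₂ * x + C b₂ * y) ^ 3 +
      C c₃ * (C a₃ * x + C b₃ * y) ^ 3)) := by
  have key : ∀ (a b : ℂ) (t₁ t₂ t₃ : ℂ), a₁ = t₁ * a → b₁ = t₁ * b → a₂ = t₂ * a → b₂ = t₂ * b →
      a₃ = t₃ * a → b₃ = t₃ * b → IsPowerSum 3 1 (C c₁ * (C a₁ * x + C b₁ * y) ^ 3 +
      (C c₂ * (C a₂ * x + C b₂ * y) ^ 3 + C c₃ * (C a₃ * x + C b₃ * y) ^ 3)) := by
    intro a b t₁ t₂ t₃ h1 h2 h3 h4 h5 h6
    have e : C c₁ * (C a₁ * x + C b₁ * y) ^ 3 + (C c₂ * (C a₂ * x + C b₂ * y) ^ 3 +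
        C c₃ * (C a₃ * x + C b₃ * y) ^ 3) =
        C (c₁ * t₁ ^ 3 + c₂ * t₂ ^ 3 + c₃ * t₃ ^ 3) * (C a * x + C b * y) ^ 3 := by
      rw [h1, h2, h3, h4, h5, h6]
      simp only [C_add, C_mul, C_pow]
      ring
    rw [e]
    exact isPowerSum_C_mul _ _ ((hom_C_mul' _ hx).add (hom_C_mul' _ hy))
  by_cases h1 : a₁ = 0 ∧ b₁ = 0
  · by_cases h2 : a₂ = 0 ∧ b₂ = 0
    · exact key a₃ b₃ 0 0 1 (by rw [h1.1]; ring) (by rw [h1.2]; ring) (by rw [h2.1]; ring)
        (by rw [h2.2]; ring) (by ring) (by ring)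
    · obtain ⟨t, ht, ht'⟩ := par h2 h23
      exact key a₂ b₂ 0 1 t (by rw [h1.1]; ring) (by rw [h1.2]; ring) (by ring) (by ring) ht ht'
  · obtain ⟨t, ht, ht'⟩ := par h1 h12
    obtain ⟨s, hs, hs'⟩ := par h1 h13
    exact key a₁ b₁ 1 t s (by ring) (by ring) ht ht' hs hs'

theorem coeffs_zero {u v : ℂ} (h : (C u * X 0 + C v * X 1 : MvPolynomial (Fin 2) ℂ) = 0) : u = 0 ∧ v = 0 := by
  constructor
  · have := congrArg (eval (![1, 0] : Fin 2 → ℂ)) h
    simpa using this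
  · have := congrArg (eval (![0, 1] : Fin 2 → ℂ)) h
    simpa using this

theorem core_two {ι : Type} [DecidableEq ι] (S : Finset ι) (c : ι → ℂ) (l : ι → MvPolynomial (Fin 2) ℂ)
    (hc : ∀ i ∈ S, c i ≠ 0) (hl : ∀ i, (l i).IsHomogeneous 1)
    (h0 : ∑ i ∈ S, c i = 0) (h1 : ∑ i ∈ S, C (c i) * l i = 0)
    (h2 : ∑ i ∈ S, C (c i) * l i ^ 2 ≠ 0) (hS : 4 ≤ S.card) :
    ∃ v : MvPolynomial (Fin 2) ℂ, v.IsHomogeneous 1 ∧
      IsPowerSum 3 (S.card - 3) (∑ i ∈ S, C (c i) * (v + l i) ^ 3) := by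
  choose α β hαβ using fun i => lin2 (l i) (hl i)
  have hX0 : (X 0 : MvPolynomial (Fin 2) ℂ).IsHomogeneous 1 := isHomogeneous_X _ _
  have hX1 : (X 1 : MvPolynomial (Fin 2) ℂ).IsHomogeneous 1 := isHomogeneous_X _ _
  have h3 : (C 3 : MvPolynomial (Fin 2) ℂ) = 3 := map_ofNat C 3
  have h6 : (C 6 : MvPolynomial (Fin 2) ℂ) = 6 := map_ofNat C 6
  set a := ∑ i ∈ S, 3 * (c i * α i ^ 2) with ha
  set b := ∑ i ∈ S, 6 * (c i * α i * β i) with hb
  set e := ∑ i ∈ S, 3 * (c i * β i ^ 2) with he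
  have e2 : 3 * ∑ i ∈ S, C (c i) * l i ^ 2 = C a * X 0 ^ 2 + C b * (X 0 * X 1) + C e * X 1 ^ 2 := by
    rw [ha, hb, he, map_sum, map_sum, map_sum, Finset.sum_mul, Finset.sum_mul, Finset.sum_mul,
      ← Finset.sum_add_distrib, ← Finset.sum_add_distrib, Finset.mul_sum]
    refine Finset.sum_congr rfl fun i _ => ?_
    rw [hαβ i]
    simp only [C_mul, C_pow, h3, h6]
    ring
  have e3 : ∑ i ∈ S, C (c i) * l i ^ 3 = C (∑ i ∈ S, c i * α i ^ 3) * X 0 ^ 3 +
      C (∑ i ∈ S, 3 * (c i * α i ^ 2 * β i)) * (X 0 ^ 2 * X 1) +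
      C (∑ i ∈ S, 3 * (c i * α i * β i ^ 2)) * (X 0 * X 1 ^ 2) + C (∑ i ∈ S, c i * β i ^ 3) * X 1 ^ 3 := by
    rw [map_sum, map_sum, map_sum, map_sum, Finset.sum_mul, Finset.sum_mul, Finset.sum_mul, Finset.sum_mul,
      ← Finset.sum_add_distrib, ← Finset.sum_add_distrib, ← Finset.sum_add_distrib]
    refine Finset.sum_congr rfl fun i _ => ?_
    rw [hαβ i]
    simp only [C_mul, C_pow, h3]
    ring
  by_cases hdisc : b ^ 2 - 4 * a * e = 0
  · by_cases h4 : S.card = 4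
    · -- four terms
      have hlin : ∑ i ∈ S, c i * α i = 0 ∧ ∑ i ∈ S, c i * β i = 0 := by
        apply coeffs_zero
        rw [map_sum, map_sum, Finset.sum_mul, Finset.sum_mul, ← Finset.sum_add_distrib, ← h1]
        refine Finset.sum_congr rfl fun i _ => ?_
        rw [hαβ i, C_mul, C_mul]
        ring
      obtain ⟨i, T, hiT, rfl, hT⟩ := Finset.card_eq_succ.mp h4
      obtain ⟨j, k, m, hjk, hjm, hkm, rfl⟩ := Finset.card_eq_three.mp hT
      have hs : ∀ (f : ι → ℂ), ∑ x ∈ insert i ({j, k, m} : Finset ι), f x = f i + (f j + (f k + f m)) := by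
        intro f
        rw [Finset.sum_insert hiT, Finset.sum_insert (by simp [hjk, hjm]), Finset.sum_pair hkm]
      rw [hs] at h0
      rw [hs, hs] at hlin
      obtain ⟨hl1, hl2⟩ := hlin
      rw [hs] at ha hb he
      have hi := hc i (by simp)
      have hj := hc j (by simp)
      have hk := hc k (by simp)
      have hm := hc m (by simp)
      -- differences
      obtain ⟨aj, haj⟩ : ∃ t, t = α j - α i := ⟨_, rfl⟩
      obtain ⟨bj, hbj⟩ : ∃ t, t = β j - β i := ⟨_, rfl⟩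
      obtain ⟨ak, hak⟩ : ∃ t, t = α k - α i := ⟨_, rfl⟩
      obtain ⟨bk, hbk⟩ : ∃ t, t = β k - β i := ⟨_, rfl⟩
      obtain ⟨am, ham⟩ : ∃ t, t = α m - α i := ⟨_, rfl⟩
      obtain ⟨bm, hbm⟩ : ∃ t, t = β m - β i := ⟨_, rfl⟩
      have r1 : c j * aj + c k * ak + c m * am = 0 := by
        rw [haj, hak, ham]
        linear_combination hl1 - α i * h0
      have r2 : c j * bj + c k * bk + c m * bm = 0 := by
        rw [hbj, hbk, hbm]
        linear_combination hl2 - β i * h0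
      have q1 : a = 3 * (c j * aj ^ 2 + c k * ak ^ 2 + c m * am ^ 2) := by
        rw [ha, haj, hak, ham]
        linear_combination 6 * α i * hl1 - 3 * α i ^ 2 * h0
      have q2 : b = 6 * (c j * aj * bj + c k * ak * bk + c m * am * bm) := by
        rw [hb, haj, hak, ham, hbj, hbk, hbm]
        linear_combination 6 * β i * hl1 + 6 * α i * hl2 - 6 * α i * β i * h0
      have q3 : e = 3 * (c j * bj ^ 2 + c k * bk ^ 2 + c m * bm ^ 2) := by
        rw [he, hbj, hbk, hbm]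
        linear_combination 6 * β i * hl2 - 3 * β i ^ 2 * h0
      have d1 : c m * (aj * bm - am * bj) = - c k * (aj * bk - ak * bj) := by
        linear_combination aj * r2 - bj * r1
      have d2 : c m * (ak * bm - am * bk) = c j * (aj * bk - ak * bj) := by
        linear_combination ak * r2 - bk * r1
      have hD : aj * bk - ak * bj = 0 := by
        have h5 : c m * (b ^ 2 - 4 * a * e) = 36 * (c i * c j * c k) * (aj * bk - ak * bj) ^ 2 := by
          have h6 : b ^ 2 - 4 * a * e = -36 * (c j * c k * (aj * bk - ak * bj) ^ 2 +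
              c j * c m * (aj * bm - am * bj) ^ 2 + c k * c m * (ak * bm - am * bk) ^ 2) := by
            rw [q1, q2, q3]
            ring
          rw [h6]
          linear_combination (-36) * c j * (c m * (aj * bm - am * bj) - c k * (aj * bk - ak * bj)) * d1 -
            36 * c k * (c m * (ak * bm - am * bk) + c j * (aj * bk - ak * bj)) * d2 -
            36 * c j * c k * (aj * bk - ak * bj) ^ 2 * h0
        rw [hdisc, mul_zero] at h5
        have h7 : (36 * (c i * c j * c k) : ℂ) ≠ 0 :=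
          mul_ne_zero (by norm_num) (mul_ne_zero (mul_ne_zero hi hj) hk)
        have h8 := (mul_eq_zero.mp h5.symm).resolve_left h7
        exact pow_eq_zero_iff (two_ne_zero) |>.mp h8
      have hD1 : aj * bm - am * bj = 0 := by
        rw [hD, mul_zero] at d1
        exact (mul_eq_zero.mp d1).resolve_left hm
      have hD2 : ak * bm - am * bk = 0 := by
        rw [hD, mul_zero] at d2
        exact (mul_eq_zero.mp d2).resolve_left hm
      refine ⟨- l i, (hl i).neg, ?_⟩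
      rw [h4]
      have hs' : ∀ (f : ι → MvPolynomial (Fin 2) ℂ), ∑ x ∈ insert i ({j, k, m} : Finset ι), f x =
          f i + (f j + (f k + f m)) := by
        intro f
        rw [Finset.sum_insert hiT, Finset.sum_insert (by simp [hjk, hjm]), Finset.sum_pair hkm]
      rw [hs']
      have t : ∀ x, - l i + l x = C (α x - α i) * X 0 + C (β x - β i) * X 1 := by
        intro x
        rw [hαβ i, hαβ x, C_sub, C_sub]
        ring
      rw [t i, t j, t k, t m, ← haj, ← hak, ← ham, ← hbj, ← hbk, ← hbm]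
      simp only [sub_self, C_0, zero_mul, add_zero, ne_eq, OfNat.ofNat_ne_zero, not_false_eq_true, zero_pow,
        mul_zero, zero_add]
      exact par3 hX0 hX1 _ _ _ _ _ _ _ _ _ hD hD1 hD2
    · -- at least five terms
      have hne : ¬ (a = 0 ∧ b = 0 ∧ e = 0) := by
        rintro ⟨h5, h6, h7⟩
        rw [h5, h6, h7, C_0] at e2
        apply h2
        have h8 : (3 : MvPolynomial (Fin 2) ℂ) * ∑ i ∈ S, C (c i) * l i ^ 2 = 0 := by
          rw [e2]
          ring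
        exact (mul_eq_zero.mp h8).resolve_left (by norm_num)
      obtain ⟨v, hv, hs⟩ := norm2 hX0 hX1 (∑ i ∈ S, c i * α i ^ 3) (∑ i ∈ S, 3 * (c i * α i ^ 2 * β i))
        (∑ i ∈ S, 3 * (c i * α i * β i ^ 2)) (∑ i ∈ S, c i * β i ^ 3) a b e hdisc hne
      refine ⟨v, hv, ?_⟩
      rw [expand S c l h0 h1, e2, e3]
      exact IsPowerSum.mono (by norm_num) hs (by omega)
  · obtain ⟨v, hv, hs⟩ := norm1 hX0 hX1 (∑ i ∈ S, c i * α i ^ 3) (∑ i ∈ S, 3 * (c i * α i ^ 2 * β i))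
      (∑ i ∈ S, 3 * (c i * α i * β i ^ 2)) (∑ i ∈ S, c i * β i ^ 3) a b e hdisc
    refine ⟨v, hv, ?_⟩
    rw [expand S c l h0 h1, e2, e3]
    exact IsPowerSum.mono (by norm_num) hs (by omega)

end Pool.Agent.KS6_80.WR
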