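import Pool.Agent.KS6_80.WR.D

/-!
# The inequality for cubic forms in at most two variables
-/

set_option autoImplicit false

namespace Pool.Agent.KS6_80.WR

open MvPolynomial Pool.Agent.Results.MP_1e0c69_ag.NewVariableFails

variable {n : ℕ}

/-- the first-order conditions for a decomposition of `f + u g`, cubic -/
theorem conditions {w : ℕ} {f g : MvPolynomial (Fin n) ℂ} {a : Fin w → ℂ}
    {m : Fin w → MvPolynomial (Fin n) ℂ}
    (h : ∀ v : MvPolynomial (Fin n) ℂ, f + v * g = ∑ i, (C (a i) * v + m i) ^ 3) :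
    ∑ i, a i ^ 3 = 0 ∧ ∑ i, C (a i ^ 2) * m i = 0 ∧ g = 3 * ∑ i, C (a i) * m i ^ 2 := by
  have e : ∀ v : MvPolynomial (Fin n) ℂ, f + v * g = v ^ 3 * ∑ i, C (a i ^ 3) +
      3 * v ^ 2 * ∑ i, C (a i ^ 2) * m i + v * (3 * ∑ i, C (a i) * m i ^ 2) + ∑ i, m i ^ 3 := by
    intro v
    rw [h v, Finset.mul_sum, Finset.mul_sum, Finset.mul_sum, Finset.mul_sum, ← Finset.sum_add_distrib,
      ← Finset.sum_add_distrib, ← Finset.sum_add_distrib]
    refine Finset.sum_congr rfl fun i _ => ?_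
    simp only [C_pow]
    ring
  obtain ⟨P, hP⟩ : ∃ P, P = ∑ i, (C (a i ^ 3) : MvPolynomial (Fin n) ℂ) := ⟨_, rfl⟩
  obtain ⟨Q, hQ⟩ : ∃ Q, Q = ∑ i, C (a i ^ 2) * m i := ⟨_, rfl⟩
  obtain ⟨K, hK⟩ : ∃ K, K = ∑ i, C (a i) * m i ^ 2 := ⟨_, rfl⟩
  rw [← hQ, ← hK]
  simp only [← hP, ← hQ, ← hK] at e
  have z0 := e 0
  have z1 := e 1
  have z2 := e (-1)
  have z3 := e 2
  have six : (6 : MvPolynomial (Fin n) ℂ) ≠ 0 := by norm_num
  have hQ0 : Q = 0 := by
    apply mul_left_cancel₀ six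
    linear_combination 2 * z0 - z1 - z2
  have hP0 : P = 0 := by
    apply mul_left_cancel₀ six
    rw [hQ0] at z1 z2 z3 z0
    linear_combination 2 * z1 - z3 - z0
  refine ⟨?_, hQ0, ?_⟩
  · have h1 := hP0
    rw [hP, ← map_sum] at h1
    exact (C_eq_zero).mp h1
  · rw [hQ0, hP0] at z1 z0
    linear_combination z1 - z0

theorem three_less (hn : n ≤ 2) {w : ℕ} {f g : MvPolynomial (Fin n) ℂ}
    (hg0 : g ≠ 0) (hw : IsPowerSum 3 w (adjoin f g)) :
    3 ≤ w ∧ ∃ v : MvPolynomial (Fin n) ℂ, v.IsHomogeneous 1 ∧ IsPowerSum 3 (w - 3) (f + v * g) := by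
  classical
  obtain ⟨a, m, hm, h⟩ := decomp hw
  obtain ⟨c0, c1, c2⟩ := conditions h
  let S : Finset (Fin w) := Finset.univ.filter fun i => a i ≠ 0
  let T : Finset (Fin w) := Finset.univ.filter fun i => ¬ a i ≠ 0
  let l : Fin w → MvPolynomial (Fin n) ℂ := fun i => C (a i)⁻¹ * m i
  have hl : ∀ i, (l i).IsHomogeneous 1 := fun i => hom_C_mul' _ (hm i)
  have hS : ∀ i, i ∈ S ↔ a i ≠ 0 := fun i => by simp [S]
  have hT : ∀ i, i ∈ T ↔ a i = 0 := fun i => by simp [T]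
  have hsplit : ∀ (φ : Fin w → MvPolynomial (Fin n) ℂ), ∑ i, φ i = ∑ i ∈ S, φ i + ∑ i ∈ T, φ i := fun φ =>
    (Finset.sum_filter_add_sum_filter_not _ _ _).symm
  have hml : ∀ i ∈ S, m i = C (a i) * l i := by
    intro i hi
    have h1 : (C (a i) * C (a i)⁻¹ : MvPolynomial (Fin n) ℂ) = 1 := by
      rw [← C_mul, mul_inv_cancel₀ ((hS i).mp hi), C_1]
    linear_combination (-m i) * h1
  have k0 : ∑ i ∈ S, a i ^ 3 = 0 := by
    rw [← c0]
    refine Finset.sum_subset (Finset.subset_univ _) fun i _ hi => ?_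
    have : a i = 0 := by
      by_contra hne
      exact hi ((hS i).mpr hne)
    rw [this]
    norm_num
  have k1 : ∑ i ∈ S, C (a i ^ 3) * l i = 0 := by
    rw [← c1, hsplit]
    have : ∑ i ∈ T, C (a i ^ 2) * m i = 0 := Finset.sum_eq_zero fun i hi => by
      rw [(hT i).mp hi]
      simp
    rw [this, add_zero]
    refine Finset.sum_congr rfl fun i hi => ?_
    rw [hml i hi, C_pow, C_pow]
    ring
  have k2 : ∑ i ∈ S, C (a i ^ 3) * l i ^ 2 ≠ 0 := by
    intro hz
    apply hg0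
    rw [c2, hsplit]
    have : ∑ i ∈ T, C (a i) * m i ^ 2 = 0 := Finset.sum_eq_zero fun i hi => by
      rw [(hT i).mp hi]
      simp
    rw [this, add_zero]
    have : ∑ i ∈ S, C (a i) * m i ^ 2 = ∑ i ∈ S, C (a i ^ 3) * l i ^ 2 :=
      Finset.sum_congr rfl fun i hi => by
        rw [hml i hi, C_pow]
        ring
    rw [this, hz, mul_zero]
  have hcard : S.card + T.card = w := by
    have := Finset.card_filter_add_card_filter_not (s := (Finset.univ : Finset (Fin w))) (fun i => a i ≠ 0)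
    rw [Finset.card_univ, Fintype.card_fin] at this
    exact this
  have hnz : ∀ i ∈ S, a i ^ 3 ≠ 0 := fun i hi => pow_ne_zero 3 ((hS i).mp hi)
  have h3 : 3 ≤ S.card := core_small S (fun i => a i ^ 3) l hnz k0 k1 k2
  have hmain : ∃ v : MvPolynomial (Fin n) ℂ, v.IsHomogeneous 1 ∧
      IsPowerSum 3 (S.card - 3) (∑ i ∈ S, C (a i ^ 3) * (v + l i) ^ 3) := by
    by_cases h4 : S.card = 3
    · obtain ⟨v, hv, hz⟩ := core_three S (fun i => a i ^ 3) l hnz (fun i _ => hl i) k0 k1 h4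
      exact ⟨v, hv, by rw [hz, h4]; exact isPowerSum_zero 3⟩
    · interval_cases n
      · exfalso
        apply k2
        refine Finset.sum_eq_zero fun i _ => ?_
        have h5 : l i = 0 := by
          have h6 := hl i
          rw [MvPolynomial.eq_C_of_isEmpty (l i)] at h6 ⊢
          by_contra hne
          have h7 : coeff 0 (l i) ≠ 0 := fun h8 => hne (by rw [h8, C_0])
          have h9 := h6 (d := 0) (by rwa [coeff_C, if_pos rfl])
          simp at h9
        rw [h5]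
        simp
      · obtain ⟨v, hv, hz⟩ := core_one S (fun i => a i ^ 3) l hl k0 k1 k2
        exact ⟨v, hv, by rw [hz]; exact IsPowerSum.mono (by norm_num) (isPowerSum_zero 3) (Nat.zero_le _)⟩
      · exact core_two S (fun i => a i ^ 3) l hnz hl k0 k1 k2 (by omega)
  obtain ⟨v, hv, hsum⟩ := hmain
  refine ⟨by omega, v, hv, ?_⟩
  have e1 : f + v * g = ∑ i ∈ S, C (a i ^ 3) * (v + l i) ^ 3 + ∑ i ∈ T, m i ^ 3 := by
    rw [h v, hsplit]
    congr 1
    · refine Finset.sum_congr rfl fun i hi => ?_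
      rw [hml i hi, C_pow]
      ring
    · refine Finset.sum_congr rfl fun i hi => ?_
      rw [(hT i).mp hi, C_0, zero_mul, zero_add]
  rw [e1, show w - 3 = (S.card - 3) + T.card by omega]
  exact hsum.add (isPowerSum_finset' T m fun i _ => hm i)

/-- **The inequality for cubic forms in at most two variables** -/
theorem cubic_small (hn : n ≤ 2) {f g : MvPolynomial (Fin n) ℂ} (hg0 : g ≠ 0) :
    3 + ⨅ v ∈ {v : MvPolynomial (Fin n) ℂ | v.IsHomogeneous 1}, waringRank 3 (f + v * g) ≤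
      waringRank 3 (adjoin f g) := by
  refine le_waringRank fun w hw => ?_
  obtain ⟨h3, v, hv, hp⟩ := three_less hn hg0 hw
  have h1 : (⨅ v ∈ {v : MvPolynomial (Fin n) ℂ | v.IsHomogeneous 1}, waringRank 3 (f + v * g)) ≤
      ((w - 3 : ℕ) : ℕ∞) := (iInf₂_le v hv).trans (waringRank_le hp)
  calc 3 + ⨅ v ∈ {v : MvPolynomial (Fin n) ℂ | v.IsHomogeneous 1}, waringRank 3 (f + v * g)
      ≤ 3 + ((w - 3 : ℕ) : ℕ∞) := by gcongr
    _ = ((3 + (w - 3) : ℕ) : ℕ∞) := by push_cast; rfl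
    _ = (w : ℕ∞) := by rw [Nat.add_sub_cancel' h3]

end Pool.Agent.KS6_80.WR
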