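import Pool.Agent.KS6_80.WR.E

/-!
# Powers of a linear form, and the cubics of the starting file
-/

set_option autoImplicit false

namespace Pool.Agent.KS6_80.WR

open MvPolynomial Pool.Agent.Results.MP_1e0c69_ag.NewVariableFails

variable {n : ℕ}

theorem isPowerSum_rename {σ τ : Type} (φ : σ → τ) {d w : ℕ} {F : MvPolynomial σ ℂ}
    (h : IsPowerSum d w F) : IsPowerSum d w (rename φ F) := by
  obtain ⟨l, hl, rfl⟩ := h
  exact ⟨fun i => rename φ (l i), fun i => (hl i).rename_isHomogeneous, by simp [map_sum]⟩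

/-- `x y ^ (d - 1)` is a sum of `d` powers, `d ≤ 3` -/
theorem isPowerSum_mul_pow {σ : Type} {d : ℕ} (hd1 : 1 ≤ d) (hd3 : d ≤ 3) {x y : MvPolynomial σ ℂ}
    (hx : x.IsHomogeneous 1) (hy : y.IsHomogeneous 1) : IsPowerSum d d (x * y ^ (d - 1)) := by
  have pow2 : ∀ (c : ℂ) (l : MvPolynomial σ ℂ), l.IsHomogeneous 1 → IsPowerSum 2 1 (C c * l ^ 2) := by
    intro c l hl
    obtain ⟨z, hz⟩ := IsAlgClosed.exists_pow_nat_eq c (n := 2) (by norm_num)
    exact ⟨fun _ => C z * l, fun _ => hom_C_mul' _ hl, by simp [mul_pow, ← hz]⟩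
  interval_cases d
  · exact ⟨fun _ => x, fun _ => hx, by simp⟩
  · have h : x * y ^ (2 - 1) = C (1 / 4) * (x + y) ^ 2 + C (-(1 / 4)) * (x - y) ^ 2 := by
      have h4 : (C (1 / 4) * 4 : MvPolynomial σ ℂ) = 1 := by
        rw [show (4 : MvPolynomial σ ℂ) = C 4 from (map_ofNat C 4).symm, ← C_mul]
        norm_num
      rw [C_neg]
      linear_combination (-(x * y)) * h4
    rw [h]
    exact (pow2 _ _ (hx.add hy)).add (pow2 _ _ (hx.sub hy))
  · have h : x * y ^ (3 - 1) = C (1 / 6) * (x + y) ^ 3 + C (1 / 6) * (x - y) ^ 3 + C (-(1 / 3)) * x ^ 3 := by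
      have h6 : (C (1 / 6) * 6 : MvPolynomial σ ℂ) = 1 := by
        rw [show (6 : MvPolynomial σ ℂ) = C 6 from (map_ofNat C 6).symm, ← C_mul]
        norm_num
      have h3 : (C (-(1 / 3)) : MvPolynomial σ ℂ) = - 2 * C (1 / 6) := by
        rw [show (2 : MvPolynomial σ ℂ) = C 2 from (map_ofNat C 2).symm, ← C_neg, ← C_mul]
        norm_num
      rw [h3]
      linear_combination (-(x * y ^ 2)) * h6
    rw [h]
    exact ((isPowerSum_C_mul _ _ (hx.add hy)).add (isPowerSum_C_mul _ _ (hx.sub hy))).add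
      (isPowerSum_C_mul _ _ hx)

/-- the upper bound for powers of a linear form -/
theorem upper {d : ℕ} (hd1 : 1 ≤ d) (hd3 : d ≤ 3) (f : MvPolynomial (Fin n) ℂ)
    {m : MvPolynomial (Fin n) ℂ} (hm : m.IsHomogeneous 1) :
    waringRank d (adjoin f (m ^ (d - 1))) ≤
      d + ⨅ v ∈ {v : MvPolynomial (Fin n) ℂ | v.IsHomogeneous 1}, waringRank d (f + v * m ^ (d - 1)) := by
  rw [← tsub_le_iff_left]
  refine le_iInf₂ fun v hv => ?_
  rw [tsub_le_iff_left]
  by_cases htop : waringRank d (f + v * m ^ (d - 1)) = ⊤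
  · rw [htop]
    simp
  · -- the rank is attained
    obtain ⟨w, hw, hw'⟩ : ∃ w, IsPowerSum d w (f + v * m ^ (d - 1)) ∧
        (w : ℕ∞) ≤ waringRank d (f + v * m ^ (d - 1)) := by
      obtain ⟨k, hk⟩ := ENat.ne_top_iff_exists.mp htop
      by_contra hcon
      push Not at hcon
      have h1 : ((k + 1 : ℕ) : ℕ∞) ≤ waringRank d (f + v * m ^ (d - 1)) := by
        refine le_waringRank fun w hw => ?_
        have h2 := hcon w hw
        rw [← hk] at h2
        have h3 : k < w := by exact_mod_cast h2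
        exact_mod_cast h3
      rw [← hk] at h1
      have h4 : k + 1 ≤ k := by exact_mod_cast h1
      omega
    have h1 : IsPowerSum d (d + w) (adjoin f (m ^ (d - 1))) := by
      have h2 : adjoin f (m ^ (d - 1)) = (X none - rename some v) * (rename some m) ^ (d - 1) +
          rename some (f + v * m ^ (d - 1)) := by
        rw [adjoin, map_add, map_mul, map_pow]
        ring
      rw [h2]
      exact (isPowerSum_mul_pow hd1 hd3 ((isHomogeneous_X _ _).sub (show (rename some v).IsHomogeneous 1 from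
        (show v.IsHomogeneous 1 from hv).rename_isHomogeneous)) hm.rename_isHomogeneous).add
        (isPowerSum_rename some hw)
    calc waringRank d (adjoin f (m ^ (d - 1))) ≤ ((d + w : ℕ) : ℕ∞) := waringRank_le h1
      _ = d + (w : ℕ∞) := by push_cast; rfl
      _ ≤ _ := by gcongr

/-- the cubic forms of the starting file -/
theorem sharp {n : ℕ} (hn : 3 ≤ n) : ∃ f g : MvPolynomial (Fin n) ℂ, f.IsHomogeneous 3 ∧
    g.IsHomogeneous 2 ∧ f ≠ 0 ∧ g ≠ 0 ∧ waringRank 3 (adjoin f g) = n + 2 ∧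
    ⨅ v ∈ {v : MvPolynomial (Fin n) ℂ | v.IsHomogeneous 1}, waringRank 3 (f + v * g) = n := by
  obtain ⟨f, g, hf, hg, hf0, hg0, -, hup, hlow⟩ := result n hn
  have h1 : (n : ℕ∞) ≤ ⨅ v ∈ {v : MvPolynomial (Fin n) ℂ | v.IsHomogeneous 1}, waringRank 3 (f + v * g) :=
    le_iInf₂ fun v hv => hlow v hv
  have h2 := lower (n := n) (d := 3) (by norm_num) hf hg hg0
  obtain ⟨μ, hμ⟩ : ∃ μ, μ = ⨅ v ∈ {v : MvPolynomial (Fin n) ℂ | v.IsHomogeneous 1},
    waringRank 3 (f + v * g) := ⟨_, rfl⟩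
  rw [← hμ] at h1 h2
  have h3 : 2 + μ ≤ n + 2 := h2.trans hup
  have h4 : μ ≤ n := by
    rw [add_comm (n : ℕ∞) 2] at h3
    exact (ENat.add_le_add_iff_left (by decide)).mp h3
  have h5 : μ = n := le_antisymm h4 h1
  refine ⟨f, g, hf, hg, hf0, hg0, ?_, by rw [← hμ, h5]⟩
  refine le_antisymm hup ?_
  rw [h5] at h2
  rwa [add_comm] at h2

end Pool.Agent.KS6_80.WR
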